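import Pool.Agent.Helper89.Stx.Defs
import Pool.Agent.Helper35.Stz.Sieve

/-!
# The sieve inequality, `r` space variables
-/

set_option autoImplicit false

namespace Stx

open Finset Stz

open scoped ComplexConjugate

/-- product weight -/
noncomputable def wv {r : ℕ} (N : ℕ) (m : Fin r → ℤ) : ℝ := ∏ l, wt N (m l)

theorem wv_nonneg {r : ℕ} (N : ℕ) (m : Fin r → ℤ) : 0 ≤ wv N m :=
  prod_nonneg fun l _ => wt_nonneg N (m l)

theorem wt_le_two (N : ℕ) (m : ℤ) : wt N m ≤ 2 := by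
  unfold wt
  apply max_le (by norm_num)
  have : 0 ≤ |(m : ℝ)| / N := by positivity
  linarith

theorem wv_le {r : ℕ} (N : ℕ) (m : Fin r → ℤ) : wv N m ≤ 2 ^ r := by
  unfold wv
  calc ∏ l, wt N (m l) ≤ ∏ _l : Fin r, (2 : ℝ) :=
        prod_le_prod (fun l _ => wt_nonneg N (m l)) fun l _ => wt_le_two N (m l)
    _ = 2 ^ r := by simp

theorem one_le_wv {r : ℕ} (N : ℕ) (hN : 1 ≤ N) (m : Fin r → ℕ) (hm : m ∈ IJ r N) :
    1 ≤ wv N (fun l => (m l : ℤ)) := by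
  unfold wv
  calc (1 : ℝ) = ∏ _l : Fin r, (1 : ℝ) := by simp
    _ ≤ _ := prod_le_prod (fun _ _ => zero_le_one) fun l _ =>
        one_le_wt N hN (m l) (mem_range.mp (Fintype.mem_piFinset.mp hm l))

theorem mem_BZ {r H : ℕ} {m : Fin r → ℤ} : m ∈ BZ r H ↔ ∀ l, -(H : ℤ) ≤ m l ∧ m l ≤ H := by
  simp only [BZ, Fintype.mem_piFinset, mem_Icc]

theorem ps_sum (A : ℕ) [NeZero A] {ι : Type*} (s : Finset ι) (g : ι → ZMod A) :
    ps A (∑ i ∈ s, g i) = ∏ i ∈ s, ps A (g i) := by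
  classical
  induction s using Finset.induction_on with
  | empty => simp [ps_zero]
  | insert a s ha ih => rw [sum_insert ha, prod_insert ha, ps_add, ih]

theorem dt_add {A r : ℕ} (m : Fin r → ℤ) (y y' : Fin r → ZMod A) :
    dt m (y + y') = dt m y + dt m y' := by
  unfold dt
  rw [← sum_add_distrib]
  exact sum_congr rfl fun l _ => by rw [Pi.add_apply]; ring

theorem dt_neg {A r : ℕ} (m : Fin r → ℤ) (y : Fin r → ZMod A) :
    dt m (-y) = -dt m y := by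
  unfold dt
  rw [← sum_neg_distrib]
  exact sum_congr rfl fun l _ => by rw [Pi.neg_apply]; ring

theorem dt_sub {A r : ℕ} (m : Fin r → ℤ) (y y' : Fin r → ZMod A) :
    dt m (y - y') = dt m y + -dt m y' := by
  rw [sub_eq_add_neg, dt_add, dt_neg]

/-- the kernel -/
noncomputable def kerr (A r : ℕ) [NeZero A] (N : ℕ) (s : ZMod A) (u : Fin r → ZMod A) : ℂ :=
  ∏ l, ker A N s (u l)

theorem kerr_eq (A r : ℕ) [NeZero A] (N : ℕ) (s : ZMod A) (u : Fin r → ZMod A) :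
    kerr A r N s u = ∑ m ∈ BZ r (2 * N), (wv N m : ℂ) *
      (ps A (-(s * ∑ l, (m l : ZMod A) ^ 2)) * ps A (dt m u)) := by
  unfold kerr ker
  rw [prod_univ_sum]
  have e : (Fintype.piFinset fun _ : Fin r => Icc (-(2 * N : ℤ)) (2 * N)) = BZ r (2 * N) := by
    unfold BZ
    push_cast
    rfl
  rw [e]
  refine sum_congr rfl fun m _ => ?_
  rw [prod_mul_distrib, prod_mul_distrib]
  congr 1
  · unfold wv
    push_cast
    rfl
  · congr 1
    · rw [← ps_sum, sum_neg_distrib, mul_sum]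
    · rw [← ps_sum]
      rfl

theorem kerr_bound (A r N q q' : ℕ) [NeZero A] (hN : 1 ≤ N) (hq : q.Prime) (hq2 : q ≠ 2)
    (hqA : q ∣ A) (hq' : q'.Prime) (hq2' : q' ≠ 2) (hqA' : q' ∣ A) (hne : q ≠ q') (a a' : ℕ)
    (ha : ¬ q ∣ a) (ha' : ¬ q' ∣ a') (u : Fin r → ZMod A) :
    ‖kerr A r N (sh A q q' a a') u‖ ≤
      ((Real.sqrt q)⁻¹ * (Real.sqrt q')⁻¹) ^ r * ∏ l, Th A N (q * q') (u l) := by
  unfold kerr
  rw [norm_prod]
  calc ∏ l, ‖ker A N (sh A q q' a a') (u l)‖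
      ≤ ∏ l : Fin r, ((Real.sqrt q)⁻¹ * (Real.sqrt q')⁻¹ * Th A N (q * q') (u l)) :=
        prod_le_prod (fun l _ => norm_nonneg _) fun l _ =>
          ker_bound A N q q' hN hq hq2 hqA hq' hq2' hqA' hne a a' ha ha' (u l)
    _ = _ := by
        rw [prod_mul_distrib]
        simp

theorem inner_eq (A r N : ℕ) [NeZero A] (f : ZMod A → (Fin r → ZMod A) → ℂ) (s : ZMod A) :
    ∑ m ∈ BZ r (2 * N), (wv N m : ℂ) * (ps A (-(s * ∑ l, (m l : ZMod A) ^ 2)) *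
      ((A : ℂ)⁻¹ * ∑ z, fm A r f m z * conj (fm A r f m (z + s)))) =
    (A : ℂ)⁻¹ * ∑ z : ZMod A, (A : ℂ)⁻¹ ^ (2 * r) * ∑ y : Fin r → ZMod A,
      ∑ y' : Fin r → ZMod A, f z y * conj (f (z + s) y') * kerr A r N s (y - y') := by
  have hcj : conj ((A : ℂ)⁻¹) = (A : ℂ)⁻¹ := by
    rw [map_inv₀, Complex.conj_natCast]
  have h1 : ∀ (m : Fin r → ℤ) (z : ZMod A), fm A r f m z * conj (fm A r f m (z + s)) =
      (A : ℂ)⁻¹ ^ (2 * r) * ∑ y : Fin r → ZMod A, ∑ y' : Fin r → ZMod A,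
        f z y * conj (f (z + s) y') * ps A (dt m (y - y')) := by
    intro m z
    unfold fm
    rw [map_mul, map_pow, hcj, map_sum]
    have h : (A : ℂ)⁻¹ ^ r * (∑ y, f z y * ps A (dt m y)) *
        ((A : ℂ)⁻¹ ^ r * ∑ y, conj (f (z + s) y * ps A (dt m y))) =
        (A : ℂ)⁻¹ ^ (2 * r) * ((∑ y, f z y * ps A (dt m y)) *
          ∑ y, conj (f (z + s) y * ps A (dt m y))) := by
      ring
    rw [h, sum_mul_sum]
    congr 1
    refine sum_congr rfl fun y _ => sum_congr rfl fun y' _ => ?_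
    rw [map_mul, ← ps_neg, dt_sub, ps_add]
    ring
  simp only [h1, kerr_eq]
  simp only [mul_sum]
  rw [sum_comm]
  refine sum_congr rfl fun z _ => ?_
  rw [sum_comm]
  refine sum_congr rfl fun y _ => ?_
  rw [sum_comm]
  refine sum_congr rfl fun y' _ => sum_congr rfl fun m _ => ?_
  ring

theorem sqrt_pow (q q' r : ℕ) : (Real.sqrt q)⁻¹ * (Real.sqrt q')⁻¹ *
    ((Real.sqrt q)⁻¹ * (Real.sqrt q')⁻¹) ^ r = ((Real.sqrt (q * q'))⁻¹) ^ (r + 1) := by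
  rw [← pow_succ', ← mul_inv, ← Real.sqrt_mul (Nat.cast_nonneg q)]

/-- one pair of primes -/
theorem pair_bound (A r N q q' : ℕ) [NeZero A] (hN : 1 ≤ N) (hq : q.Prime) (hq2 : q ≠ 2)
    (hqA : q ∣ A) (hq' : q'.Prime) (hq2' : q' ≠ 2) (hqA' : q' ∣ A) (hne : q ≠ q')
    (f : ZMod A → (Fin r → ZMod A) → ℂ) :
    ∑ m ∈ BZ r (2 * N), wv N m * ∑ k : ZMod A,
      chi A q (k - ∑ l, (m l : ZMod A) ^ 2) * chi A q' (k - ∑ l, (m l : ZMod A) ^ 2) *
        ‖ft A (fm A r f m) k‖ ^ 2 ≤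
      ((Real.sqrt (q * q'))⁻¹) ^ (r + 1) * ∑ a ∈ range q, ∑ a' ∈ range q', (A : ℝ)⁻¹ *
        ∑ z : ZMod A, (A : ℝ)⁻¹ ^ (2 * r) * ∑ y : Fin r → ZMod A, ∑ y' : Fin r → ZMod A,
          ‖f z y‖ * ‖f (z + sh A q q' a a') y'‖ * ∏ l, Th A N (q * q') (y' l - y l) := by
  obtain ⟨c, hc0, hc, hce⟩ := chi_expand A q hq hq2 hqA
  obtain ⟨c', hc0', hc', hce'⟩ := chi_expand A q' hq' hq2' hqA'
  have hqq : q * q' ∣ A := by
    exact Nat.Coprime.mul_dvd_of_dvd_of_dvd ((Nat.coprime_primes hq hq').mpr hne) hqA hqA'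
  have hTh1 : ∀ u : ZMod A, 0 ≤ Th A N (q * q') u := fun u =>
    Th_nonneg A N (q * q') (Nat.mul_pos hq.pos hq'.pos) hN hqq u
  have hTh : ∀ y y' : Fin r → ZMod A, 0 ≤ ∏ l, Th A N (q * q') (y' l - y l) := fun y y' =>
    prod_nonneg fun l _ => hTh1 _
  set T : ℝ := ∑ m ∈ BZ r (2 * N), wv N m * ∑ k : ZMod A,
      chi A q (k - ∑ l, (m l : ZMod A) ^ 2) * chi A q' (k - ∑ l, (m l : ZMod A) ^ 2) *
        ‖ft A (fm A r f m) k‖ ^ 2 with hT
  have hTC : (T : ℂ) = ∑ a ∈ range q, ∑ a' ∈ range q', c a * c' a' *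
      ((A : ℂ)⁻¹ * ∑ z : ZMod A, (A : ℂ)⁻¹ ^ (2 * r) * ∑ y : Fin r → ZMod A,
        ∑ y' : Fin r → ZMod A, f z y * conj (f (z + sh A q q' a a') y') *
          kerr A r N (sh A q q' a a') (y - y')) := by
    simp only [← inner_eq, ← corr]
    rw [hT]
    push_cast
    simp only [mul_sum]
    rw [comm3]
    refine sum_congr rfl fun m _ => ?_
    rw [comm3]
    refine sum_congr rfl fun k _ => ?_
    rw [hce, hce', sum_mul_sum, sum_mul, mul_sum]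
    refine sum_congr rfl fun a _ => ?_
    rw [sum_mul, mul_sum]
    refine sum_congr rfl fun a' _ => ?_
    have h2 : ps A (((a * (A / q) : ℕ) : ZMod A) * (k - ∑ l, (m l : ZMod A) ^ 2)) *
        ps A (((a' * (A / q') : ℕ) : ZMod A) * (k - ∑ l, (m l : ZMod A) ^ 2)) =
        ps A (-(∑ l, sh A q q' a a' * (m l : ZMod A) ^ 2)) * ps A (sh A q q' a a' * k) := by
      rw [← mul_sum, ← ps_add, ← ps_add]
      congr 1
      unfold sh
      push_cast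
      ring
    calc (wv N m : ℂ) * (c a * ps A (((a * (A / q) : ℕ) : ZMod A) *
            (k - ∑ l, (m l : ZMod A) ^ 2)) *
          (c' a' * ps A (((a' * (A / q') : ℕ) : ZMod A) * (k - ∑ l, (m l : ZMod A) ^ 2))) *
            (‖ft A (fm A r f m) k‖ : ℂ) ^ 2)
        = (wv N m : ℂ) * (c a * c' a' *
          (ps A (((a * (A / q) : ℕ) : ZMod A) * (k - ∑ l, (m l : ZMod A) ^ 2)) *
          ps A (((a' * (A / q') : ℕ) : ZMod A) * (k - ∑ l, (m l : ZMod A) ^ 2))) *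
            (‖ft A (fm A r f m) k‖ : ℂ) ^ 2) := by ring
      _ = _ := by
          rw [h2]
          ring
  have hA0 : (0 : ℝ) ≤ (A : ℝ)⁻¹ := by positivity
  have hmain : |T| ≤ ((Real.sqrt (q * q'))⁻¹) ^ (r + 1) * ∑ a ∈ range q, ∑ a' ∈ range q',
      (A : ℝ)⁻¹ * ∑ z : ZMod A, (A : ℝ)⁻¹ ^ (2 * r) * ∑ y : Fin r → ZMod A,
        ∑ y' : Fin r → ZMod A,
          ‖f z y‖ * ‖f (z + sh A q q' a a') y'‖ * ∏ l, Th A N (q * q') (y' l - y l) := by
    rw [← Real.norm_eq_abs, ← Complex.norm_real, hTC, mul_sum]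
    refine (norm_sum_le _ _).trans (sum_le_sum fun a _ => ?_)
    rw [mul_sum]
    refine (norm_sum_le _ _).trans (sum_le_sum fun a' _ => ?_)
    have hpos : 0 ≤ (A : ℝ)⁻¹ * ∑ z : ZMod A, (A : ℝ)⁻¹ ^ (2 * r) * ∑ y : Fin r → ZMod A,
        ∑ y' : Fin r → ZMod A,
          ‖f z y‖ * ‖f (z + sh A q q' a a') y'‖ * ∏ l, Th A N (q * q') (y' l - y l) := by
      refine mul_nonneg hA0 (sum_nonneg fun z _ => mul_nonneg (by positivity)
        (sum_nonneg fun y _ => sum_nonneg fun y' _ => mul_nonneg (by positivity) (hTh _ _)))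
    have hqpos : 0 ≤ ((Real.sqrt (q * q'))⁻¹) ^ (r + 1) := by positivity
    by_cases ha : q ∣ a
    · rw [hc0 a ha]
      simp only [zero_mul, norm_zero]
      exact mul_nonneg hqpos hpos
    by_cases ha' : q' ∣ a'
    · rw [hc0' a' ha']
      simp only [mul_zero, zero_mul, norm_zero]
      exact mul_nonneg hqpos hpos
    have hker : ∀ u : Fin r → ZMod A, ‖kerr A r N (sh A q q' a a') u‖ ≤
        ((Real.sqrt q)⁻¹ * (Real.sqrt q')⁻¹) ^ r * ∏ l, Th A N (q * q') (u l) := fun u =>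
      kerr_bound A r N q q' hN hq hq2 hqA hq' hq2' hqA' hne a a' ha ha' u
    have h1 : ‖(A : ℂ)⁻¹ * ∑ z : ZMod A, (A : ℂ)⁻¹ ^ (2 * r) * ∑ y : Fin r → ZMod A,
        ∑ y' : Fin r → ZMod A, f z y * conj (f (z + sh A q q' a a') y') *
          kerr A r N (sh A q q' a a') (y - y')‖ ≤
        ((Real.sqrt q)⁻¹ * (Real.sqrt q')⁻¹) ^ r * ((A : ℝ)⁻¹ * ∑ z : ZMod A,
          (A : ℝ)⁻¹ ^ (2 * r) * ∑ y : Fin r → ZMod A, ∑ y' : Fin r → ZMod A,
            ‖f z y‖ * ‖f (z + sh A q q' a a') y'‖ * ∏ l, Th A N (q * q') (y' l - y l)) := by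
      rw [norm_mul, norm_inv, Complex.norm_natCast, mul_left_comm]
      apply mul_le_mul_of_nonneg_left _ hA0
      rw [mul_sum]
      refine (norm_sum_le _ _).trans (sum_le_sum fun z _ => ?_)
      rw [norm_mul, norm_pow, norm_inv, Complex.norm_natCast, mul_left_comm]
      apply mul_le_mul_of_nonneg_left _ (by positivity)
      rw [mul_sum]
      refine (norm_sum_le _ _).trans (sum_le_sum fun y _ => ?_)
      rw [mul_sum]
      refine (norm_sum_le _ _).trans (sum_le_sum fun y' _ => ?_)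
      rw [norm_mul, norm_mul, RCLike.norm_conj]
      have h3 : ∏ l, Th A N (q * q') (y' l - y l) = ∏ l, Th A N (q * q') ((y - y') l) := by
        refine prod_congr rfl fun l _ => ?_
        rw [← Th_neg, neg_sub, Pi.sub_apply]
      rw [h3]
      calc ‖f z y‖ * ‖f (z + sh A q q' a a') y'‖ * ‖kerr A r N (sh A q q' a a') (y - y')‖
          ≤ ‖f z y‖ * ‖f (z + sh A q q' a a') y'‖ *
            (((Real.sqrt q)⁻¹ * (Real.sqrt q')⁻¹) ^ r * ∏ l, Th A N (q * q') ((y - y') l)) :=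
            mul_le_mul_of_nonneg_left (hker _) (by positivity)
        _ = _ := by ring
    calc ‖c a * c' a' * ((A : ℂ)⁻¹ * ∑ z : ZMod A, (A : ℂ)⁻¹ ^ (2 * r) *
          ∑ y : Fin r → ZMod A, ∑ y' : Fin r → ZMod A,
            f z y * conj (f (z + sh A q q' a a') y') * kerr A r N (sh A q q' a a') (y - y'))‖
        = ‖c a‖ * ‖c' a'‖ * ‖(A : ℂ)⁻¹ * ∑ z : ZMod A, (A : ℂ)⁻¹ ^ (2 * r) *
          ∑ y : Fin r → ZMod A, ∑ y' : Fin r → ZMod A,
            f z y * conj (f (z + sh A q q' a a') y') *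
              kerr A r N (sh A q q' a a') (y - y')‖ := by
          rw [norm_mul, norm_mul]
      _ ≤ ((Real.sqrt q)⁻¹ * (Real.sqrt q')⁻¹) * (((Real.sqrt q)⁻¹ * (Real.sqrt q')⁻¹) ^ r *
          ((A : ℝ)⁻¹ * ∑ z : ZMod A, (A : ℝ)⁻¹ ^ (2 * r) *
          ∑ y : Fin r → ZMod A, ∑ y' : Fin r → ZMod A,
            ‖f z y‖ * ‖f (z + sh A q q' a a') y'‖ *
              ∏ l, Th A N (q * q') (y' l - y l))) :=
          mul_le_mul (mul_le_mul (hc a) (hc' a') (norm_nonneg _) (by positivity)) h1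
            (norm_nonneg _) (by positivity)
      _ = _ := by
          rw [← mul_assoc, sqrt_pow]
  exact (le_abs_self T).trans hmain

/-- The sieve inequality, Bessel's inequality as a hypothesis. -/
theorem sieve_of_bess (A r N : ℕ) [NeZero A] (hN : 1 ≤ N) (I : Finset ℕ)
    (hI : ∀ n ∈ I, 1 ≤ n ∧ n ^ 2 < A)
    (Q : Finset ℕ) (hQ : ∀ q ∈ Q, q.Prime ∧ q ≠ 2 ∧ q ∣ A) (hQ0 : Q.Nonempty)
    (hQI : ∀ n ∈ I, 2 * (Q.filter fun q => q ∣ n).card ≤ Q.card)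
    (f : ZMod A → (Fin r → ZMod A) → ℂ)
    (hb : ∀ z, ∑ m ∈ BZ r (2 * N), ‖fm A r f m z‖ ^ 2 ≤ ((A : ℝ)⁻¹) ^ r * ∑ y, ‖f z y‖ ^ 2) :
    En A r I N f ≤ 2 ^ (r + 2) / Q.card * (((A : ℝ)⁻¹) ^ (r + 1) * ∑ z, ∑ y, ‖f z y‖ ^ 2)
      + 4 / (Q.card : ℝ) ^ 2 * ∑ p ∈ Q.offDiag, ((Real.sqrt (p.1 * p.2))⁻¹) ^ (r + 1) *
        ∑ a ∈ range p.1, ∑ a' ∈ range p.2, (A : ℝ)⁻¹ * ∑ z : ZMod A, ((A : ℝ)⁻¹) ^ (2 * r) *
          ∑ y : Fin r → ZMod A, ∑ y' : Fin r → ZMod A,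
            ‖f z y‖ * ‖f (z + sh A p.1 p.2 a a') y'‖ *
              ∏ l, Th A N (p.1 * p.2) (y' l - y l) := by
  classical
  have hc : (0 : ℝ) < Q.card := by exact_mod_cast hQ0.card_pos
  set c4 : ℝ := 4 / (Q.card : ℝ) ^ 2 with hc4
  have hc4p : 0 ≤ c4 := by positivity
  set G : (Fin r → ℤ) → ZMod A → ℝ := fun m k =>
    c4 * (∑ q ∈ Q, chi A q (k - ∑ l, (m l : ZMod A) ^ 2)) ^ 2 *
      ‖ft A (fm A r f m) k‖ ^ 2 with hG
  have hGp : ∀ m k, 0 ≤ G m k := fun m k => by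
    rw [hG]
    positivity
  -- step 1
  have h1 : En A r I N f ≤ ∑ m ∈ IJ r N, ∑ k : ZMod A, G (fun l => (m l : ℤ)) k := by
    unfold En
    rw [sum_comm]
    refine sum_le_sum fun m _ => ?_
    have hinj : Set.InjOn (fun n : ℕ => ((n ^ 2 + ∑ l, m l ^ 2 : ℕ) : ZMod A))
        (I : Finset ℕ) := by
      intro n hn n' hn' h
      apply inj_sq A I (fun n hn => (hI n hn).2) hn hn'
      push_cast at h ⊢
      exact add_right_cancel h
    calc ∑ n ∈ I, ‖ft A (fm A r f fun l => (m l : ℤ)) ((n ^ 2 + ∑ l, m l ^ 2 : ℕ) : ZMod A)‖ ^ 2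
        ≤ ∑ n ∈ I, G (fun l => (m l : ℤ)) ((n ^ 2 + ∑ l, m l ^ 2 : ℕ) : ZMod A) := by
          refine sum_le_sum fun n hn => ?_
          rw [hG]
          simp only
          have h2 : ((n ^ 2 + ∑ l, m l ^ 2 : ℕ) : ZMod A) -
              ∑ l, (((m l : ℕ) : ℤ) : ZMod A) ^ 2 = (n : ZMod A) ^ 2 := by
            push_cast
            ring
          rw [h2]
          have h3 := avg_ge A Q hQ hQ0 n (hQI n hn)
          calc ‖ft A (fm A r f fun l => (m l : ℤ))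
                ((n ^ 2 + ∑ l, m l ^ 2 : ℕ) : ZMod A)‖ ^ 2
              = 1 * ‖ft A (fm A r f fun l => (m l : ℤ))
                ((n ^ 2 + ∑ l, m l ^ 2 : ℕ) : ZMod A)‖ ^ 2 := (one_mul _).symm
            _ ≤ _ := mul_le_mul_of_nonneg_right h3 (sq_nonneg _)
      _ = ∑ k ∈ I.image (fun n : ℕ => ((n ^ 2 + ∑ l, m l ^ 2 : ℕ) : ZMod A)),
            G (fun l => (m l : ℤ)) k := (sum_image hinj).symm
      _ ≤ _ := sum_le_sum_of_subset_of_nonneg (subset_univ _) fun k _ _ => hGp _ _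
  -- step 2
  have h2 : ∑ m ∈ IJ r N, ∑ k : ZMod A, G (fun l => (m l : ℤ)) k ≤
      ∑ m ∈ BZ r (2 * N), wv N m * ∑ k : ZMod A, G m k := by
    calc ∑ m ∈ IJ r N, ∑ k : ZMod A, G (fun l => (m l : ℤ)) k
        ≤ ∑ m ∈ IJ r N, wv N (fun l => (m l : ℤ)) *
            ∑ k : ZMod A, G (fun l => (m l : ℤ)) k := by
          refine sum_le_sum fun m hm => ?_
          have h3 := one_le_wv N hN m hm
          have h4 : 0 ≤ ∑ k : ZMod A, G (fun l => (m l : ℤ)) k :=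
            sum_nonneg fun k _ => hGp _ _
          nlinarith
      _ = ∑ m ∈ (IJ r N).image (fun (m : Fin r → ℕ) l => (m l : ℤ)),
            wv N m * ∑ k : ZMod A, G m k :=
          (sum_image (f := fun m : Fin r → ℤ => wv N m * ∑ k : ZMod A, G m k) (s := IJ r N)
            (g := fun (m : Fin r → ℕ) l => (m l : ℤ)) fun m _ m' _ h => by
              funext l
              exact Nat.cast_injective (R := ℤ) (congrFun h l)).symm
      _ ≤ _ := by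
          apply sum_le_sum_of_subset_of_nonneg
          · intro m hm
            rw [mem_image] at hm
            obtain ⟨j, hj, rfl⟩ := hm
            rw [mem_BZ]
            intro l
            have := mem_range.mp (Fintype.mem_piFinset.mp hj l)
            push_cast
            omega
          · intro m _ _
            exact mul_nonneg (wv_nonneg N m) (sum_nonneg fun k _ => hGp _ _)
  -- step 3: expansion of the square
  have h3 : ∑ m ∈ BZ r (2 * N), wv N m * ∑ k : ZMod A, G m k =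
      c4 * ∑ q ∈ Q, ∑ m ∈ BZ r (2 * N), wv N m * ∑ k : ZMod A,
        chi A q (k - ∑ l, (m l : ZMod A) ^ 2) * chi A q (k - ∑ l, (m l : ZMod A) ^ 2) *
          ‖ft A (fm A r f m) k‖ ^ 2
      + c4 * ∑ p ∈ Q.offDiag, ∑ m ∈ BZ r (2 * N), wv N m * ∑ k : ZMod A,
        chi A p.1 (k - ∑ l, (m l : ZMod A) ^ 2) * chi A p.2 (k - ∑ l, (m l : ZMod A) ^ 2) *
          ‖ft A (fm A r f m) k‖ ^ 2 := by
    rw [← mul_add]
    have h4 : ∑ q ∈ Q, ∑ m ∈ BZ r (2 * N), wv N m * ∑ k : ZMod A,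
        chi A q (k - ∑ l, (m l : ZMod A) ^ 2) * chi A q (k - ∑ l, (m l : ZMod A) ^ 2) *
          ‖ft A (fm A r f m) k‖ ^ 2 =
        ∑ p ∈ Q.diag, ∑ m ∈ BZ r (2 * N), wv N m * ∑ k : ZMod A,
        chi A p.1 (k - ∑ l, (m l : ZMod A) ^ 2) * chi A p.2 (k - ∑ l, (m l : ZMod A) ^ 2) *
          ‖ft A (fm A r f m) k‖ ^ 2 := by
      rw [sum_diag]
    rw [h4, ← sum_union (disjoint_diag_offDiag Q), diag_union_offDiag]
    rw [sum_comm, mul_sum]
    refine sum_congr rfl fun m _ => ?_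
    rw [← mul_sum, mul_left_comm]
    congr 1
    rw [sum_comm, mul_sum]
    refine sum_congr rfl fun k _ => ?_
    rw [hG]
    simp only
    rw [← sum_mul, sq (∑ q ∈ Q, chi A q (k - ∑ l, (m l : ZMod A) ^ 2)), sum_mul_sum,
      sum_product, mul_assoc]
  -- step 4: diagonal
  have h4 : ∑ q ∈ Q, ∑ m ∈ BZ r (2 * N), wv N m * ∑ k : ZMod A,
        chi A q (k - ∑ l, (m l : ZMod A) ^ 2) * chi A q (k - ∑ l, (m l : ZMod A) ^ 2) *
          ‖ft A (fm A r f m) k‖ ^ 2 ≤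
      Q.card * (2 ^ r * (((A : ℝ)⁻¹) ^ (r + 1) * ∑ z, ∑ y, ‖f z y‖ ^ 2)) := by
    rw [← nsmul_eq_mul]
    apply sum_le_card_nsmul
    intro q _
    calc ∑ m ∈ BZ r (2 * N), wv N m * ∑ k : ZMod A,
        chi A q (k - ∑ l, (m l : ZMod A) ^ 2) * chi A q (k - ∑ l, (m l : ZMod A) ^ 2) *
          ‖ft A (fm A r f m) k‖ ^ 2
        ≤ ∑ m ∈ BZ r (2 * N), 2 ^ r * ((A : ℝ)⁻¹ * ∑ z, ‖fm A r f m z‖ ^ 2) := by
          refine sum_le_sum fun m _ => ?_
          apply mul_le_mul (wv_le N m) _ _ (by positivity)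
          · rw [← parseval]
            refine sum_le_sum fun k _ => ?_
            calc chi A q (k - ∑ l, (m l : ZMod A) ^ 2) * chi A q (k - ∑ l, (m l : ZMod A) ^ 2) *
                ‖ft A (fm A r f m) k‖ ^ 2 ≤ 1 * ‖ft A (fm A r f m) k‖ ^ 2 :=
                  mul_le_mul_of_nonneg_right (chi_sq_le A q _) (sq_nonneg _)
              _ = _ := one_mul _
          · exact sum_nonneg fun k _ => mul_nonneg (mul_self_nonneg _) (sq_nonneg _)
      _ = 2 ^ r * ((A : ℝ)⁻¹ * ∑ z, ∑ m ∈ BZ r (2 * N), ‖fm A r f m z‖ ^ 2) := by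
          rw [← mul_sum, ← mul_sum, sum_comm]
      _ ≤ 2 ^ r * ((A : ℝ)⁻¹ * ∑ z, ((A : ℝ)⁻¹) ^ r * ∑ y, ‖f z y‖ ^ 2) := by
          apply mul_le_mul_of_nonneg_left _ (by positivity)
          apply mul_le_mul_of_nonneg_left _ (by positivity)
          exact sum_le_sum fun z _ => hb z
      _ = _ := by
          rw [← mul_sum, pow_succ']
          ring
  -- step 5: off diagonal
  have h5 : ∑ p ∈ Q.offDiag, ∑ m ∈ BZ r (2 * N), wv N m * ∑ k : ZMod A,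
        chi A p.1 (k - ∑ l, (m l : ZMod A) ^ 2) * chi A p.2 (k - ∑ l, (m l : ZMod A) ^ 2) *
          ‖ft A (fm A r f m) k‖ ^ 2 ≤
      ∑ p ∈ Q.offDiag, ((Real.sqrt (p.1 * p.2))⁻¹) ^ (r + 1) *
        ∑ a ∈ range p.1, ∑ a' ∈ range p.2, (A : ℝ)⁻¹ * ∑ z : ZMod A, ((A : ℝ)⁻¹) ^ (2 * r) *
          ∑ y : Fin r → ZMod A, ∑ y' : Fin r → ZMod A,
            ‖f z y‖ * ‖f (z + sh A p.1 p.2 a a') y'‖ *
              ∏ l, Th A N (p.1 * p.2) (y' l - y l) := by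
    refine sum_le_sum fun p hp => ?_
    rw [mem_offDiag] at hp
    exact pair_bound A r N p.1 p.2 hN (hQ _ hp.1).1 (hQ _ hp.1).2.1 (hQ _ hp.1).2.2
      (hQ _ hp.2.1).1 (hQ _ hp.2.1).2.1 (hQ _ hp.2.1).2.2 hp.2.2 f
  have h6 : c4 * (Q.card * (2 ^ r * (((A : ℝ)⁻¹) ^ (r + 1) * ∑ z, ∑ y, ‖f z y‖ ^ 2))) =
      2 ^ (r + 2) / Q.card * (((A : ℝ)⁻¹) ^ (r + 1) * ∑ z, ∑ y, ‖f z y‖ ^ 2) := by
    rw [← mul_assoc, ← mul_assoc]
    congr 1
    rw [hc4]
    field_simp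
    ring
  calc En A r I N f ≤ _ := h1
    _ ≤ _ := h2
    _ = _ := h3
    _ ≤ _ := add_le_add (mul_le_mul_of_nonneg_left h4 hc4p) (mul_le_mul_of_nonneg_left h5 hc4p)
    _ = _ := by rw [h6]

end Stx
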