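import Pool.Agent.Helper89.Stx.Defs
import Pool.Agent.Helper65.Stz.Basic

/-!
# Schur test
-/

set_option autoImplicit false

namespace Stx

open Finset Stz

theorem schur (A : ℕ) [NeZero A] {ι : Type} (S : Finset ι) (φ : ι → ZMod A → ℂ) (B : ℝ)
    (hB : ∀ z, (A : ℝ)⁻¹ * ∑ z', ‖∑ i ∈ S, φ i z * (starRingEnd ℂ) (φ i z')‖ ≤ B) (c : ι → ℂ) :
    (A : ℝ)⁻¹ * ∑ z, ‖∑ i ∈ S, c i * φ i z‖ ^ 2 ≤ B * ∑ i ∈ S, ‖c i‖ ^ 2 := by
  have hA0 : (0 : ℝ) ≤ (A : ℝ)⁻¹ := by positivity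
  have hB0 : 0 ≤ B := le_trans (mul_nonneg hA0 (sum_nonneg fun _ _ => norm_nonneg _)) (hB 0)
  set K : ZMod A → ZMod A → ℂ := fun z z' => ∑ i ∈ S, φ i z * (starRingEnd ℂ) (φ i z') with hK
  set g : ZMod A → ℂ := fun z => ∑ i ∈ S, c i * φ i z with hg
  have hcj : (starRingEnd ℂ) ((A : ℂ)⁻¹) = (A : ℂ)⁻¹ := by
    rw [map_inv₀, Complex.conj_natCast]
  set h : ι → ℂ := fun i => (A : ℂ)⁻¹ * ∑ z, (starRingEnd ℂ) (g z) * φ i z with hh
  set X : ℝ := (A : ℝ)⁻¹ * ∑ z, ‖g z‖ ^ 2 with hX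
  have hX0 : 0 ≤ X := mul_nonneg hA0 (sum_nonneg fun _ _ => sq_nonneg _)
  -- X as a pairing
  have h1 : (X : ℂ) = ∑ i ∈ S, c i * h i := by
    rw [hX]
    push_cast
    have e : ∀ z, ((‖g z‖ : ℂ)) ^ 2 = g z * (starRingEnd ℂ) (g z) := by
      intro z
      have := sq_norm_eq (g z)
      push_cast at this
      exact this
    calc (A : ℂ)⁻¹ * ∑ z, ((‖g z‖ : ℂ)) ^ 2
        = (A : ℂ)⁻¹ * ∑ z, ∑ i ∈ S, c i * ((starRingEnd ℂ) (g z) * φ i z) := by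
          congr 1
          refine sum_congr rfl fun z _ => ?_
          rw [e z]
          conv_lhs => rw [hg]
          simp only
          rw [sum_mul]
          refine sum_congr rfl fun i _ => ?_
          rw [hg]
          ring
      _ = _ := by
          rw [sum_comm, mul_sum]
          refine sum_congr rfl fun i _ => ?_
          rw [hh]
          simp only
          rw [← mul_sum]
          ring
  have h2 : X ^ 2 ≤ (∑ i ∈ S, ‖c i‖ ^ 2) * ∑ i ∈ S, ‖h i‖ ^ 2 := by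
    have h3 : X ≤ ∑ i ∈ S, ‖c i‖ * ‖h i‖ := by
      have h4 : ‖(X : ℂ)‖ = X := by rw [Complex.norm_real, Real.norm_of_nonneg hX0]
      rw [← h4, h1]
      refine (norm_sum_le _ _).trans (le_of_eq ?_)
      exact sum_congr rfl fun i _ => norm_mul _ _
    calc X ^ 2 ≤ (∑ i ∈ S, ‖c i‖ * ‖h i‖) ^ 2 := pow_le_pow_left₀ hX0 h3 2
      _ ≤ _ := sum_mul_sq_le_sq_mul_sq S _ _
  -- the dual quantity
  have h5 : ((∑ i ∈ S, ‖h i‖ ^ 2 : ℝ) : ℂ) =
      (A : ℂ)⁻¹ ^ 2 * ∑ z, ∑ z', (starRingEnd ℂ) (g z) * g z' * K z z' := by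
    rw [Complex.ofReal_sum]
    simp only [sq_norm_eq]
    calc ∑ i ∈ S, h i * (starRingEnd ℂ) (h i)
        = ∑ i ∈ S, (A : ℂ)⁻¹ ^ 2 * ∑ z, ∑ z', (starRingEnd ℂ) (g z) * g z' *
            (φ i z * (starRingEnd ℂ) (φ i z')) := by
          refine sum_congr rfl fun i _ => ?_
          rw [hh]
          simp only
          rw [map_mul, hcj, map_sum]
          have h6 : (A : ℂ)⁻¹ * (∑ z, (starRingEnd ℂ) (g z) * φ i z) *
              ((A : ℂ)⁻¹ * ∑ z, (starRingEnd ℂ) ((starRingEnd ℂ) (g z) * φ i z)) =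
              (A : ℂ)⁻¹ ^ 2 * ((∑ z, (starRingEnd ℂ) (g z) * φ i z) *
                ∑ z, (starRingEnd ℂ) ((starRingEnd ℂ) (g z) * φ i z)) := by ring
          rw [h6, sum_mul_sum]
          congr 1
          refine sum_congr rfl fun z _ => sum_congr rfl fun z' _ => ?_
          rw [map_mul, Complex.conj_conj]
          ring
      _ = _ := by
          rw [← mul_sum]
          congr 1
          rw [sum_comm]
          refine sum_congr rfl fun z _ => ?_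
          rw [sum_comm]
          refine sum_congr rfl fun z' _ => ?_
          rw [hK]
          simp only
          rw [← mul_sum]
  have hKsymm : ∀ z z', ‖K z z'‖ = ‖K z' z‖ := by
    intro z z'
    have : K z z' = (starRingEnd ℂ) (K z' z) := by
      rw [hK]
      simp only
      rw [map_sum]
      refine sum_congr rfl fun i _ => ?_
      rw [map_mul, Complex.conj_conj, mul_comm]
    rw [this, RCLike.norm_conj]
  have h7 : ∑ i ∈ S, ‖h i‖ ^ 2 ≤ B * X := by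
    have h8 : ∑ i ∈ S, ‖h i‖ ^ 2 ≤ (A : ℝ)⁻¹ ^ 2 * ∑ z, ∑ z', ‖g z‖ * ‖g z'‖ * ‖K z z'‖ := by
      have h9 : ‖((∑ i ∈ S, ‖h i‖ ^ 2 : ℝ) : ℂ)‖ = ∑ i ∈ S, ‖h i‖ ^ 2 := by
        rw [Complex.norm_real, Real.norm_of_nonneg (sum_nonneg fun _ _ => sq_nonneg _)]
      rw [← h9, h5, norm_mul, norm_pow, norm_inv, Complex.norm_natCast]
      apply mul_le_mul_of_nonneg_left _ (by positivity)
      refine (norm_sum_le _ _).trans (sum_le_sum fun z _ => ?_)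
      refine (norm_sum_le _ _).trans (sum_le_sum fun z' _ => ?_)
      rw [norm_mul, norm_mul, RCLike.norm_conj]
    have h10 : ∑ z, ∑ z', ‖g z‖ * ‖g z'‖ * ‖K z z'‖ ≤ ∑ z, ‖g z‖ ^ 2 * ∑ z', ‖K z z'‖ := by
      have h11 : ∑ z, ∑ z', ‖g z‖ * ‖g z'‖ * ‖K z z'‖ ≤
          ∑ z, ∑ z', (‖g z‖ ^ 2 * ‖K z z'‖ / 2 + ‖g z'‖ ^ 2 * ‖K z z'‖ / 2) := by
        refine sum_le_sum fun z _ => sum_le_sum fun z' _ => ?_
        have := mul_nonneg (sq_nonneg (‖g z‖ - ‖g z'‖)) (norm_nonneg (K z z'))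
        nlinarith
      have h12 : ∑ z, ∑ z', (‖g z‖ ^ 2 * ‖K z z'‖ / 2 + ‖g z'‖ ^ 2 * ‖K z z'‖ / 2) =
          ∑ z, ‖g z‖ ^ 2 * ∑ z', ‖K z z'‖ := by
        simp only [sum_add_distrib]
        have h13 : ∑ z, ∑ z', ‖g z'‖ ^ 2 * ‖K z z'‖ / 2 = ∑ z, ∑ z', ‖g z‖ ^ 2 * ‖K z z'‖ / 2 := by
          rw [sum_comm]
          refine sum_congr rfl fun z _ => sum_congr rfl fun z' _ => ?_
          rw [hKsymm]
        rw [h13, ← sum_add_distrib]
        refine sum_congr rfl fun z _ => ?_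
        rw [← sum_add_distrib, mul_sum]
        refine sum_congr rfl fun z' _ => ?_
        ring
      rw [← h12]
      exact h11
    calc ∑ i ∈ S, ‖h i‖ ^ 2 ≤ (A : ℝ)⁻¹ ^ 2 * ∑ z, ‖g z‖ ^ 2 * ∑ z', ‖K z z'‖ :=
          h8.trans (mul_le_mul_of_nonneg_left h10 (by positivity))
      _ = (A : ℝ)⁻¹ * ∑ z, ‖g z‖ ^ 2 * ((A : ℝ)⁻¹ * ∑ z', ‖K z z'‖) := by
          rw [sq, mul_assoc, mul_sum]
          congr 1
          refine sum_congr rfl fun z _ => ?_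
          ring
      _ ≤ (A : ℝ)⁻¹ * ∑ z, ‖g z‖ ^ 2 * B := by
          apply mul_le_mul_of_nonneg_left _ hA0
          exact sum_le_sum fun z _ => mul_le_mul_of_nonneg_left (hB z) (sq_nonneg _)
      _ = B * X := by
          rw [← sum_mul, hX]
          ring
  -- conclusion
  have hC0 : 0 ≤ ∑ i ∈ S, ‖c i‖ ^ 2 := sum_nonneg fun _ _ => sq_nonneg _
  change X ≤ B * ∑ i ∈ S, ‖c i‖ ^ 2
  rcases hX0.eq_or_lt with h0 | hpos
  · rw [← h0]
    exact mul_nonneg hB0 hC0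
  · have h14 : X ^ 2 ≤ (∑ i ∈ S, ‖c i‖ ^ 2) * (B * X) :=
      h2.trans (mul_le_mul_of_nonneg_left h7 hC0)
    have h15 : X * X ≤ (B * ∑ i ∈ S, ‖c i‖ ^ 2) * X := by
      calc X * X = X ^ 2 := (sq X).symm
        _ ≤ _ := h14
        _ = _ := by ring
    exact le_of_mul_le_mul_right h15 hpos

end Stx
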