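import Pool.Agent.Helper35.Stx.SieveOf
import Pool.Agent.Helper65.Stx.Basic

/-!
# The sieve inequality, `r` space variables
-/

set_option autoImplicit false

namespace Stx

open Finset Stz

theorem sieve (A r N : ℕ) [NeZero A] (hN : 1 ≤ N) (hNA : 4 * N < A) (I : Finset ℕ)
    (hI : ∀ n ∈ I, 1 ≤ n ∧ n ^ 2 < A)
    (Q : Finset ℕ) (hQ : ∀ q ∈ Q, q.Prime ∧ q ≠ 2 ∧ q ∣ A) (hQ0 : Q.Nonempty)
    (hQI : ∀ n ∈ I, 2 * (Q.filter fun q => q ∣ n).card ≤ Q.card)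
    (f : ZMod A → (Fin r → ZMod A) → ℂ) :
    En A r I N f ≤ 2 ^ (r + 2) / Q.card * (((A : ℝ)⁻¹) ^ (r + 1) * ∑ z, ∑ y, ‖f z y‖ ^ 2)
      + 4 / (Q.card : ℝ) ^ 2 * ∑ p ∈ Q.offDiag, ((Real.sqrt (p.1 * p.2))⁻¹) ^ (r + 1) *
        ∑ a ∈ range p.1, ∑ a' ∈ range p.2, (A : ℝ)⁻¹ * ∑ z : ZMod A, ((A : ℝ)⁻¹) ^ (2 * r) *
          ∑ y : Fin r → ZMod A, ∑ y' : Fin r → ZMod A,
            ‖f z y‖ * ‖f (z + sh A p.1 p.2 a a') y'‖ *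
              ∏ l, Th A N (p.1 * p.2) (y' l - y l) := by
  apply sieve_of_bess A r N hN I hI Q hQ hQ0 hQI f
  intro z
  apply bess A r (BZ r (2 * N))
  intro m hm l
  rw [mem_BZ] at hm
  have h := hm l
  have h1 : |m l| ≤ 2 * N := abs_le.mpr (by push_cast at h; exact h)
  have h2 : (4 * N : ℤ) < A := by exact_mod_cast hNA
  linarith

end Stx
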